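import Pool.Agent.Helper65.OH.Goals
import Pool.Agent.Helper11.Ram.MCOR

/-!
# Packet STEP of the campaign OH: one step on words and on numbers
-/

namespace Pool.Agent.Helper75.OH

open Pool.Agent.Helper65.LinSpace Pool.Agent.Helper78.Mpc Pool.Agent.Helper28.Ram Finset
open Pool.Agent.Helper65.OH Pool.Agent.Helper11.Ram

theorem capN_long {S : ℕ} {u : List Bool} (h : ¬ u.length ≤ S) : capN S (num u) = 0 := by
  by_contra hc
  exact h (capN_num_le hc)

theorem capN_Good {f : List Bool → List Bool} {e S Λ β B Q : ℕ} (hf : Good f e S Λ β B Q)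
    {u : List Bool} (hu : u.length ≤ Q) :
    capN S (fnN e S Λ β B (num u)) = if (f u).length ≤ S then num (f u) else 0 := by
  rw [hf u hu]
  split_ifs with h
  · exact capN_num h
  · exact capN_zero S

theorem lw_codeO (o : Option Bool) : Prm.lw (codeO o) = num (letW o) := by
  rcases o with _ | _ | _ <;> rfl

theorem length_letW (o : Option Bool) : (letW o).length = 2 := rfl

theorem eq01_codeO (o : Option Bool) : eq01 (codeO o) 2 = if o = some true then 1 else 0 := by
  rcases o with _ | _ | _ <;> rfl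

theorem pl_mi (z : List Bool) (k : ℕ) :
    ((Prm.pl (num z) k : ℕ) : ℤ) - ((Prm.mi (num z) k : ℕ) : ℤ) = mv z k := by
  unfold Prm.pl Prm.mi mv
  rw [letN_num, letN_num, eq01_codeO, eq01_codeO]
  push_cast
  rfl

section

variable {D : ℕ} {A : OneHead D} {eA eN eW c : ℕ} {w y : List Bool} {m : Prm} {C : Conf D}
  {q v : ℕ}

theorem adN_eq (_hP : Par A eA eN eW c w y m) (hF : Fns A m) (hq : GoodQ m C q) :
    m.adN q = if (A.addr C.q).length ≤ m.S then num (A.addr C.q) else 0 := by
  unfold Prm.adN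
  rw [hq.wq]
  have := hq.len
  exact capN_Good hF.addr (by omega)

theorem adr_eq (hP : Par A eA eN eW c w y m) (hF : Fns A m) (hq : GoodQ m C q)
    (h : (A.addr C.q).length ≤ m.S) : m.adr q = bval (A.addr C.q) := by
  unfold Prm.adr
  rw [adN_eq hP hF hq, if_pos h, log_num, num_eq_bval]
  omega

theorem inpN_eq (hP : Par A eA eN eW c w y m) (hF : Fns A m) (hq : GoodQ m C q)
    (hv : m.vq q v = capN m.S (num (C.M C.h))) (h : (A.addr C.q).length ≤ m.S)
    (h2 : (C.M C.h).length ≤ m.S) : m.inpN q v = num (A.inp w y C.q (C.M C.h)) := by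
  unfold Prm.inpN OneHead.inp
  rw [adr_eq hP hF hq h, hP.h_x, hP.h_y, letN_num, letN_num, lw_codeO, lw_codeO, hv,
    capN_num h2, hq.wq, sdN_num, catN_num, catN_num, catN_num]

theorem inp_len (hq : GoodQ m C q) (h2 : (C.M C.h).length ≤ m.S) :
    (A.inp w y C.q (C.M C.h)).length ≤ 3 * m.S + 5 := by
  unfold OneHead.inp
  have := hq.len
  simp only [List.length_append, length_sd, length_letW]
  omega

theorem nu_eq (hP : Par A eA eN eW c w y m) (hF : Fns A m) (hq : GoodQ m C q)
    (hv : m.vq q v = capN m.S (num (C.M C.h))) (h : (A.addr C.q).length ≤ m.S)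
    (h2 : (C.M C.h).length ≤ m.S) : m.nu q v =
      if (A.next (A.inp w y C.q (C.M C.h))).length ≤ m.S then
        num (A.next (A.inp w y C.q (C.M C.h))) else 0 := by
  unfold Prm.nu
  rw [inpN_eq hP hF hq hv h h2]
  exact capN_Good hF.next (inp_len hq h2)

theorem nw_eq (hP : Par A eA eN eW c w y m) (hF : Fns A m) (hq : GoodQ m C q)
    (hv : m.vq q v = capN m.S (num (C.M C.h))) (h : (A.addr C.q).length ≤ m.S)
    (h2 : (C.M C.h).length ≤ m.S) : m.nw q v =
      if (A.write (A.inp w y C.q (C.M C.h))).length ≤ m.S then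
        num (A.write (A.inp w y C.q (C.M C.h))) else 0 := by
  unfold Prm.nw
  rw [inpN_eq hP hF hq hv h h2]
  exact capN_Good hF.write (inp_len hq h2)

theorem viol_iff (m : Prm) (q u : ℕ) : m.viol q u = 0 ↔ ∀ k < m.D,
    Prm.mi u k ≤ m.cq q k + Prm.pl u k ∧
      m.cq q k + Prm.pl u k - Prm.mi u k < 2 ^ m.κ := by
  unfold Prm.viol
  rw [Finset.sum_eq_zero_iff]
  constructor
  · intro h k hk
    have := h k (Finset.mem_range.2 hk)
    unfold le01 lt01 at this
    split_ifs at this with h1 h2
    · exact ⟨h1, h2⟩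
    all_goals simp at this
  · intro h k hk
    obtain ⟨h1, h2⟩ := h k (Finset.mem_range.1 hk)
    unfold le01 lt01
    rw [if_pos h1, if_pos h2]
    norm_num

end

/-- Packet STEP. -/
theorem STEP (hG : GEO_stmt) : STEP_stmt := by
  intro D A eA eN eW c w y m hP ho hF C q v hq hv hacc
  have hacc0 : accN (m.wq q) = 0 := by
    rw [hq.wq]
    have h1 : accN (num C.q) ≠ 1 := fun h => hacc ((accN_num _).1 h)
    have h2 := accN_le (num C.q)
    omega
  have hsq : m.sq q v = ifz (m.ok q v) (m.mk' 0 (m.cq q))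
      (m.mk' (m.nu q v) fun k => m.cq q k + Prm.pl (m.nu q v) k - Prm.mi (m.nu q v) k) := by
    unfold Prm.sq
    rw [hacc0, ifz_zero]
  constructor
  · by_cases hok : m.ok q v = 0
    · left
      have hc := hG.code m 0 (m.cq q) (by positivity) fun k _ => hG.cq_lt m q k
      rw [hsq, hok, ifz_zero]
      refine ⟨rfl, hc.2.1, ?_, hc.1⟩
      unfold Prm.sv
      rw [hok, hacc0, eq01_of rfl, ifz_ne (by norm_num)]
    · right
      have hok' := hok
      unfold Prm.ok at hok'
      have h1 : m.adN q ≠ 0 := left_ne_zero_of_mul hok'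
      have h2 := right_ne_zero_of_mul hok'
      have h3 : m.vq q v ≠ 0 := left_ne_zero_of_mul h2
      have h4 := right_ne_zero_of_mul h2
      have h5 : m.nu q v ≠ 0 := left_ne_zero_of_mul h4
      have h6 := right_ne_zero_of_mul h4
      have h7 : m.nw q v ≠ 0 := left_ne_zero_of_mul h6
      have h8 := right_ne_zero_of_mul h6
      have hviol : m.viol q (m.nu q v) = 0 := by
        by_contra hne
        exact h8 (if_neg hne)
      have ha : (A.addr C.q).length ≤ m.S := by
        by_contra hcon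
        exact h1 (by rw [adN_eq hP hF hq, if_neg hcon])
      have hM : (C.M C.h).length ≤ m.S := by
        by_contra hcon
        exact h3 (by rw [hv, capN_long hcon])
      have hN : (A.next (A.inp w y C.q (C.M C.h))).length ≤ m.S := by
        by_contra hcon
        exact h5 (by rw [nu_eq hP hF hq hv ha hM, if_neg hcon])
      have hW : (A.write (A.inp w y C.q (C.M C.h))).length ≤ m.S := by
        by_contra hcon
        exact h7 (by rw [nw_eq hP hF hq hv ha hM, if_neg hcon])
      have hnu : m.nu q v = num (A.next (A.inp w y C.q (C.M C.h))) := by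
        rw [nu_eq hP hF hq hv ha hM, if_pos hN]
      have hv' := (viol_iff m q (m.nu q v)).1 hviol
      have hc := hG.code m (m.nu q v)
        (fun k => m.cq q k + Prm.pl (m.nu q v) k - Prm.mi (m.nu q v) k)
        (capN_lt _ _) fun k hk => (hv' k hk).2
      refine ⟨hok, ?_, by rw [nw_eq hP hF hq hv ha hM, if_pos hW], hW⟩
      rw [hsq, ifz_ne hok]
      refine ⟨hc.1, ?_, hN, ?_⟩
      · rw [hc.2.1, hnu]
        rfl
      · intro k
        have hk : (k : ℕ) < m.D := by rw [hP.h_D]; exact k.2
        rw [hc.2.2 k hk]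
        have h9 := (hv' k hk).1
        have h10 := hq.cq k
        have h11 := pl_mi (A.next (A.inp w y C.q (C.M C.h))) k
        rw [← hnu] at h11
        show ((m.cq q k + Prm.pl (m.nu q v) k - Prm.mi (m.nu q v) k : ℕ) : ℤ) =
          C.h k + mv (A.next (A.inp w y C.q (C.M C.h))) k + 2 ^ (m.κ - 1)
        rw [← h11]
        push_cast [Nat.cast_sub h9]
        rw [h10]
        ring
  · intro ha hM hN hW hbox
    have hN' : (A.next (A.inp w y C.q (C.M C.h))).length ≤ m.S := hN
    have hnu : m.nu q v = num (A.next (A.inp w y C.q (C.M C.h))) := by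
      rw [nu_eq hP hF hq hv ha hM, if_pos hN']
    have hviol : m.viol q (m.nu q v) = 0 := by
      rw [viol_iff]
      intro k hk
      have hkD : k < D := by rw [← hP.h_D]; exact hk
      have h10 := hq.cq ⟨k, hkD⟩
      have h11 := pl_mi (A.next (A.inp w y C.q (C.M C.h))) k
      rw [← hnu] at h11
      obtain ⟨hb1, hb2⟩ := hbox ⟨k, hkD⟩
      have e : (A.step w y C).h ⟨k, hkD⟩ =
          C.h ⟨k, hkD⟩ + mv (A.next (A.inp w y C.q (C.M C.h))) k := rfl
      rw [e, ← h11] at hb1 hb2
      have h10' : ((m.cq q k : ℕ) : ℤ) = C.h ⟨k, hkD⟩ + 2 ^ (m.κ - 1) := h10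
      have h12 : (Prm.mi (m.nu q v) k : ℤ) ≤ (m.cq q k : ℤ) + (Prm.pl (m.nu q v) k : ℤ) := by
        rw [h10']; linarith
      have h13 : Prm.mi (m.nu q v) k ≤ m.cq q k + Prm.pl (m.nu q v) k := by exact_mod_cast h12
      refine ⟨h13, ?_⟩
      have h14 : ((m.cq q k + Prm.pl (m.nu q v) k - Prm.mi (m.nu q v) k : ℕ) : ℤ) <
          ((2 ^ m.κ : ℕ) : ℤ) := by
        push_cast [Nat.cast_sub h13]
        rw [h10']
        linarith
      exact_mod_cast h14
    unfold Prm.ok
    rw [adN_eq hP hF hq, if_pos ha, hv, capN_num hM, hnu, nw_eq hP hF hq hv ha hM, if_pos hW,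
      ← hnu, hviol, eq01_of rfl, hnu]
    have p1 := num_pos (A.addr C.q)
    have p2 := num_pos (C.M C.h)
    have p3 := num_pos (A.next (A.inp w y C.q (C.M C.h)))
    have p4 := num_pos (A.write (A.inp w y C.q (C.M C.h)))
    positivity

end Pool.Agent.Helper75.OH
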